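import Pool.Agent.H581Z.E0f

/-!
# `E_0` embeds into topological conjugacy of smooth Axiom A diffeomorphisms of the 2-torus

Definitions are in `Pool/Agent/H581Z/Defs.lean` and `Pool/Agent/H581Z/E0Defs.lean`.

Idea.  A skew product over a north-south map has a source, a sink and two saddles `p`, `q`.  The
unstable curve of `p` agrees with the stable curve of `q` except over a sequence of shrinking
intervals, where it leaves it up to a height `η (2n)` or `η (2n+1)` according to the `n`-th bit.
The least time spent near `q` by the points of such an arc is invariant under conjugacy up to a
bounded error, while changing finitely many heights does not change the conjugacy class.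
-/

namespace Pool.Agent.Results.MP_e91f84_lc.AE0Embeds

open Pool.Agent.H581Z

theorem result : ∃ φ : (ℕ → Bool) → DiffInf 2, Continuous φ ∧ (∀ x, AxiomA (φ x).1) ∧
    ∀ x y, {n | x n ≠ y n}.Finite ↔ TopConj (φ x).1 (φ y).1 :=
  e0_embeds

end Pool.Agent.Results.MP_e91f84_lc.AE0Embeds
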